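import Pool.Agent.Helper10.BT.A2
import Pool.Agent.Helper10.OE.Desc

/-!
# Sections over extensions: the product over the embeddings, for any linear system
-/

universe u

set_option linter.unusedSectionVars false

namespace Pool.Agent.BT

open Pool.Agent.PL Pool.Agent.Helper91.Sect OE

section

variable {k k' K : Type u} [Field k] [Field k'] [Field K] [Algebra k k'] [Algebra k' K]
  [Algebra k (kbar k' K)] [IsScalarTower k k' (kbar k' K)] [FiniteDimensional k k']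
  [Algebra.IsAlgebraic k (kbar k' K)] {ι κ : Type} [Fintype ι] [Fintype κ]

/-- the automorphism over `k'` in `σ τ_ω = τ_(σ ω) h` -/
noncomputable def hE (σ : kbar k' K ≃ₐ[k] kbar k' K) (ω : k' →ₐ[k] kbar k' K) : Gk k' K :=
  AlgEquiv.ofRingEquiv (f := ((hh σ ω : kbar k' K ≃ₐ[k] kbar k' K) : kbar k' K ≃+* kbar k' K))
    (fun a => hh_fix σ ω ⟨a, rfl⟩)

theorem hE_apply (σ : kbar k' K ≃ₐ[k] kbar k' K) (ω : k' →ₐ[k] kbar k' K) (w : kbar k' K) :
    lft (permOf k' σ ω) (hE σ ω w) = σ (lft ω w) := (lft_hh σ ω w).symm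

/-- the tuple moved by an embedding -/
noncomputable def mv {ι : Type} (ω : k' →ₐ[k] kbar k' K) (A : ι → kbar k' K) :
    ι → kbar k' K := fun q => (lft ω).symm (A q)

theorem hE_mv {ι : Type} (σ : kbar k' K ≃ₐ[k] kbar k' K) (ω : k' →ₐ[k] kbar k' K)
    (A : ι → kbar k' K) :
    hE σ ω • mv ω A = mv (permOf k' σ ω) (fun q => σ (A q)) := by
  funext q
  change hE σ ω ((lft ω).symm (A q)) = (lft (permOf k' σ ω)).symm (σ (A q))
  rw [AlgEquiv.eq_symm_apply, hE_apply, AlgEquiv.apply_symm_apply]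

variable {p : ℕ} {z : (ι → kbar k' K) × (ι → kbar k' K) → kbar k' K}

/-- one factor -/
noncomputable def zf (z : (ι → kbar k' K) × (ι → kbar k' K) → kbar k' K)
    (A B : ι → kbar k' K) (ω : k' →ₐ[k] kbar k' K) : kbar k' K :=
  lft ω (z (mv ω A, mv ω B))

/-- one root of unity -/
noncomputable def zr (z : (ι → kbar k' K) × (ι → kbar k' K) → kbar k' K)
    (σ : kbar k' K ≃ₐ[k] kbar k' K) (A B : ι → kbar k' K) (ω : k' →ₐ[k] kbar k' K) : kbar k' K :=
  lft (permOf k' σ ω) (zt z (hE σ ω) (mv ω A, mv ω B))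

theorem zf_act {σ : kbar k' K ≃ₐ[k] kbar k' K} {A B : ι → kbar k' K}
    {ω : k' →ₐ[k] kbar k' K}
    (h0 : z (mv (permOf k' σ ω) (fun q => σ (A q)), mv (permOf k' σ ω) (fun q => σ (B q))) ≠ 0) :
    σ (zf z A B ω) = zr z σ A B ω *
      zf z (fun q => σ (A q)) (fun q => σ (B q)) (permOf k' σ ω) := by
  unfold zf zr zt
  rw [← hE_apply, ← map_mul]
  congr 1
  have h1 : hE σ ω • (mv ω A, mv ω B) = (mv (permOf k' σ ω) (fun q => σ (A q)),
      mv (permOf k' σ ω) (fun q => σ (B q))) := by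
    rw [← hE_mv, ← hE_mv]
    rfl
  rw [h1, div_mul_cancel₀ _ h0]

/-- the product of the factors -/
noncomputable def zz (k : Type u) [Field k] [Algebra k k'] [Algebra k (kbar k' K)]
    [IsScalarTower k k' (kbar k' K)] [FiniteDimensional k k'] [Algebra.IsAlgebraic k (kbar k' K)]
    (z : (ι → kbar k' K) × (ι → kbar k' K) → kbar k' K) (A B : ι → kbar k' K) :
    kbar k' K := ∏ ω : k' →ₐ[k] kbar k' K, zf z A B ω

/-- the product of the roots of unity -/
noncomputable def zu (z : (ι → kbar k' K) × (ι → kbar k' K) → kbar k' K)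
    (σ : kbar k' K ≃ₐ[k] kbar k' K) (A B : ι → kbar k' K) : kbar k' K :=
  ∏ ω : k' →ₐ[k] kbar k' K, zr z σ A B ω

theorem zz_act {σ : kbar k' K ≃ₐ[k] kbar k' K} {A B : ι → kbar k' K}
    (h0 : ∀ ω : k' →ₐ[k] kbar k' K, z (mv ω (fun q => σ (A q)), mv ω (fun q => σ (B q))) ≠ 0) :
    σ (zz k z A B) = zu z σ A B * zz k z (fun q => σ (A q)) (fun q => σ (B q)) := by
  unfold zz zu
  rw [map_prod, Finset.prod_congr rfl fun ω _ => zf_act (h0 _), Finset.prod_mul_distrib]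
  congr 1
  exact Equiv.prod_comp (permOf k' σ) (zf z (fun q => σ (A q)) (fun q => σ (B q)))

variable {s : GaloisSection k' K} {v : ι → K} {u : (ι → kbar k' K) → AlgebraicClosure K}

/-- all moved pairs are good -/
def GoodW (k : Type u) [Field k] [Algebra k k'] [Algebra k (kbar k' K)]
    [IsScalarTower k k' (kbar k' K)] [FiniteDimensional k k'] [Algebra.IsAlgebraic k (kbar k' K)]
    (v : ι → K) (u : (ι → kbar k' K) → AlgebraicClosure K) (A B : ι → kbar k' K) : Prop :=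
  ∀ ω : k' →ₐ[k] kbar k' K, GoodP v u (mv ω A, mv ω B)

include s in
theorem goodW_act (hp : p ≠ 0) (hu : ∀ A, u A ^ p = evl v A)
    {σ : kbar k' K ≃ₐ[k] kbar k' K} {A B : ι → kbar k' K} (h : GoodW k v u A B) :
    GoodW k v u (fun q => σ (A q)) (fun q => σ (B q)) := by
  intro ω
  obtain ⟨ω', rfl⟩ := (permOf k' σ).surjective ω
  have h1 := goodP_act s hp hu (hE σ ω') (h ω')
  have h2 : hE σ ω' • (mv ω' A, mv ω' B) = (mv (permOf k' σ ω') (fun q => σ (A q)),
      mv (permOf k' σ ω') (fun q => σ (B q))) := by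
    rw [← hE_mv, ← hE_mv]
    rfl
  rwa [h2] at h1

theorem zr_pow (hp : p ≠ 0) (hu : ∀ A, u A ^ p = evl v A) (hz : IsZE s v u z)
    {A B : ι → kbar k' K} (h : GoodW k v u A B) (σ : kbar k' K ≃ₐ[k] kbar k' K)
    (ω : k' →ₐ[k] kbar k' K) : zr z σ A B ω ^ p = 1 := by
  unfold zr
  rw [← map_pow, zt_pow hp hu hz (h ω), map_one]

theorem zu_pow (hp : p ≠ 0) (hu : ∀ A, u A ^ p = evl v A) (hz : IsZE s v u z)
    {A B : ι → kbar k' K} (h : GoodW k v u A B) (σ : kbar k' K ≃ₐ[k] kbar k' K) :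
    zu z σ A B ^ p = 1 := by
  unfold zu
  rw [← Finset.prod_pow]
  exact Finset.prod_eq_one fun ω _ => zr_pow hp hu hz h σ ω

theorem zu_mul (hp : p ≠ 0) (hu : ∀ A, u A ^ p = evl v A) (hz : IsZE s v u z)
    {A B D : ι → kbar k' K} (h1 : GoodW k v u A B) (h2 : GoodW k v u B D)
    (h3 : GoodW k v u A D) (σ : kbar k' K ≃ₐ[k] kbar k' K) :
    zu z σ A B * zu z σ B D = zu z σ A D := by
  unfold zu zr
  rw [← Finset.prod_mul_distrib]
  refine Finset.prod_congr rfl fun ω _ => ?_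
  rw [← map_mul, zt_mul hp hu hz (h1 ω) (h2 ω) (h3 ω)]

theorem zz_ne {A B : ι → kbar k' K} (hz : IsZE s v u z) (h : GoodW k v u A B) :
    zz k z A B ≠ 0 := by
  unfold zz zf
  exact Finset.prod_ne_zero_iff.2 fun ω _ => (_root_.map_ne_zero _).2 (hz _ (h ω)).1

include s in
theorem zz_act' (hp : p ≠ 0) (hu : ∀ A, u A ^ p = evl v A) (hz : IsZE s v u z)
    {A B : ι → kbar k' K} (h : GoodW k v u A B) (σ : kbar k' K ≃ₐ[k] kbar k' K) :
    σ (zz k z A B) = zu z σ A B * zz k z (fun q => σ (A q)) (fun q => σ (B q)) :=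
  zz_act fun ω => (hz _ (goodW_act (s := s) hp hu h ω)).1

/-- **The product relation over `k`.** -/
theorem zz_prod {d r : ℕ} {v' : κ → K} (hp : p ≠ 0) (hd : d = p * r)
    (hu : ∀ A, u A ^ p = evl v A) (hz : IsZE s v u z) {G : Fin d → ι → kbar k' K}
    {W : κ → kbar k' K} {T : k}
    (hprod : ∀ ω : k' →ₐ[k] kbar k' K, ∏ i, evl v (mv ω (G i)) =
      ((algebraMap k (kbar k' K) T : kbar k' K) : AlgebraicClosure K) * evl v' (mv ω W) ^ p)
    (hG0 : ∀ ω i, evl v (mv (k := k) ω (G i)) ≠ 0)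
    (hG : ∀ i j, i ≠ j → GoodW k v u (G i) (G j)) {α : kbar k' K}
    (hα : α ^ p = algebraMap k (kbar k' K) T) :
    ∃ ξ : kbar k' K, ξ ^ p = 1 ∧ ∀ σ : kbar k' K ≃ₐ[k] kbar k' K, (∀ i q, σ (G i q) = G i q) →
      (∀ q, σ (W q) = W q) → ∀ i, (∏ j ∈ Finset.univ.erase i, zu z σ (G j) (G i)) *
        (ξ * α ^ Fintype.card (k' →ₐ[k] kbar k' K)) =
        σ (ξ * α ^ Fintype.card (k' →ₐ[k] kbar k' K)) := by
  classical
  have hαω : ∀ ω : k' →ₐ[k] kbar k' K, ((lft ω).symm α) ^ p = algebraMap k (kbar k' K) T := by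
    intro ω
    rw [← map_pow, hα]
    exact (lft ω).symm.commutes T
  choose ξ hξ1 hξ2 using fun ω : k' →ₐ[k] kbar k' K =>
    exists_xi (v' := v') hp hu (hG0 ω) (hprod ω) (hαω ω)
  set b : (k' →ₐ[k] kbar k' K) → kbar k' K := fun ω => lft ω (ξ ω * (lft ω).symm α) with hb
  have hb' : ∀ ω, b ω = lft ω (ξ ω) * α := by
    intro ω
    rw [hb]
    change lft ω (ξ ω * (lft ω).symm α) = _
    rw [map_mul, AlgEquiv.apply_symm_apply]
  have hprodb : ∏ ω, b ω = (∏ ω, lft ω (ξ ω)) * α ^ Fintype.card (k' →ₐ[k] kbar k' K) := by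
    rw [Finset.prod_congr rfl fun ω _ => hb' ω, Finset.prod_mul_distrib, Finset.prod_const,
      Finset.card_univ]
  refine ⟨∏ ω, lft ω (ξ ω), ?_, fun σ hσG hσW i => ?_⟩
  · rw [← Finset.prod_pow]
    exact Finset.prod_eq_one fun ω _ => by rw [← map_pow, hξ1, map_one]
  rw [← hprodb, map_prod]
  have hGσ : ∀ j, (fun q => σ (G j q)) = G j := fun j => funext (hσG j)
  have hWσ : (fun q => σ (W q)) = W := funext hσW
  -- the relation for one embedding
  have h1 : ∀ ω, (∏ j ∈ Finset.univ.erase i, zr z σ (G j) (G i) ω) * b (permOf k' σ ω) = σ (b ω) := by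
    intro ω
    have e1 : ∀ j, hE σ ω • mv ω (G j) = mv (permOf k' σ ω) (G j) := by
      intro j
      rw [hE_mv, hGσ]
    have e2 : hE σ ω • mv ω W = mv (permOf k' σ ω) W := by
      rw [hE_mv, hWσ]
    have h2 := zt_prod_eq (v' := v') hp hd hu hz (hG0 ω) (fun j l hjl => hG j l hjl ω) (hξ2 ω)
      (σ := hE σ ω) (β' := ξ (permOf k' σ ω) * (lft (permOf k' σ ω)).symm α) (by
        rw [e2, ← hξ2 (permOf k' σ ω)]
        exact Finset.prod_congr rfl fun j _ => by rw [e1]) i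
    have h3 := congrArg (lft (permOf k' σ ω)) h2
    rw [map_mul, map_prod, hE_apply] at h3
    exact h3
  have h4 : ∏ j ∈ Finset.univ.erase i, zu z σ (G j) (G i) =
      ∏ ω, ∏ j ∈ Finset.univ.erase i, zr z σ (G j) (G i) ω := by
    unfold zu
    exact Finset.prod_comm
  have h5 : ∏ ω, b ω = ∏ ω, b (permOf k' σ ω) := (Equiv.prod_comp (permOf k' σ) b).symm
  rw [h4, h5, ← Finset.prod_mul_distrib]
  exact Finset.prod_congr rfl fun ω _ => h1 ω

end

end Pool.Agent.BT
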