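import Pool.Agent.Helper10.BT.Spec

/-!
# BERTINI: derivations and the derivative of the equation
-/

universe u v

namespace Pool.Agent.BT

open MvPolynomial

section Dual

variable {L : Type u} [Field L]

theorem JJ_deriv {n a k DD d p : ℕ} {V : Type} [Fintype V] {e : V → ℕ} {γ : Fin d → L} {T : L}
    {F : V → MvPolynomial (Fin n) L} {z : Unk n a k DD V → L} (hE : EE e p γ T F z = 0)
    (D : Derivation ℤ L L) (hγ : ∀ i, D (γ i) = 0)
    (hT : D T = 0) (hF : ∀ u s, D (coeff s (F u)) = 0) : JJ e p γ T F z (fun b => D (z b)) = 0 := by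
  let ι : L →+* DualNumber L := TrivSqZeroExt.inlHom L L
  have hι : ∀ x : L, ι x = TrivSqZeroExt.inl x := fun _ => rfl
  have hDx : ∀ x : L, D x = 0 → PC.dualHom D x = ι x := by
    intro x hx
    rw [PC.dualHom_apply, hx, TrivSqZeroExt.inl_zero, mul_zero, add_zero]
    rfl
  have h1 : map (PC.dualHom D) (EE e p γ T F z) = 0 := by rw [hE, map_zero]
  rw [map_EE] at h1
  have hF' : (fun u => map (PC.dualHom D) (F u)) = fun u => map ι (F u) := by
    funext u
    ext s : 1
    rw [coeff_map, coeff_map, hDx _ (hF u s)]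
  have hz : (fun b => PC.dualHom D (z b)) =
      fun b => ι (z b) + DualNumber.eps * ι (D (z b)) := by
    funext b
    exact PC.dualHom_apply D (z b)
  rw [hF', hz, hDx T hT, funext fun i => hDx (γ i) (hγ i)] at h1
  obtain ⟨c, hc⟩ := EE_taylor (e := e) p (fun i => ι (γ i)) (ι T) (fun u => map ι (F u)) (fun b => ι (z b))
    (fun b => ι (D (z b))) DualNumber.eps
  rw [hc, ← map_EE, hE, map_zero, zero_add, ← C_pow, sq, DualNumber.eps_mul_eps, C_0, zero_mul,
    add_zero, ← map_JJ] at h1
  ext s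
  have h2 := congrArg (coeff s) h1
  rw [coeff_C_mul, coeff_map, coeff_zero] at h2
  have h3 := congrArg TrivSqZeroExt.snd h2
  rw [hι, TrivSqZeroExt.snd_mul, DualNumber.fst_eps, DualNumber.snd_eps,
    TrivSqZeroExt.fst_inl, TrivSqZeroExt.snd_inl, TrivSqZeroExt.snd_zero] at h3
  rw [coeff_zero]
  simpa using h3

end Dual

end Pool.Agent.BT
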