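import Pool.Agent.Helper37.BT.Basic

/-!
# BERTINI: coefficient vectors of polynomials in several variables
-/

universe u v

namespace Pool.Agent.BT

open MvPolynomial

variable {R : Type u} [CommRing R] {n D : ℕ}

/-- the coefficient vector -/
noncomputable def cf (D : ℕ) (P : MvPolynomial (Fin n) R) (q : MonV n D) : R := coeff q.1 P

lemma cf_apply (P : MvPolynomial (Fin n) R) (q : MonV n D) : cf D P q = coeff q.1 P := rfl

lemma cf_pol (g : MonV n D → R) : cf D (pol g) = g := funext fun q => coeff_pol g q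

lemma pol_cf {P : MvPolynomial (Fin n) R} (hP : P.totalDegree ≤ D) : pol (cf D P) = P :=
  pol_coeff hP

lemma pol_add (g g' : MonV n D → R) : pol (fun q => g q + g' q) = pol g + pol g' := by
  rw [pol, pol, pol, ← Finset.sum_add_distrib]
  exact Finset.sum_congr rfl fun q _ => map_add _ _ _

lemma pol_sub (g g' : MonV n D → R) : pol (fun q => g q - g' q) = pol g - pol g' := by
  rw [pol, pol, pol, ← Finset.sum_sub_distrib]
  exact Finset.sum_congr rfl fun q _ => map_sub _ _ _

lemma pol_neg (g : MonV n D → R) : pol (fun q => -g q) = -pol g := by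
  rw [pol, pol, ← Finset.sum_neg_distrib]
  exact Finset.sum_congr rfl fun q _ => map_neg _ _

lemma pol_smul (a : R) (g : MonV n D → R) : pol (fun q => a * g q) = C a * pol g := by
  rw [pol, pol, Finset.mul_sum]
  refine Finset.sum_congr rfl fun q _ => ?_
  rw [C_mul_monomial]

lemma pol_zero : pol (fun _ : MonV n D => (0 : R)) = 0 := by
  rw [pol]
  simp

lemma pol_finsum {ι : Type*} (s : Finset ι) (g : ι → MonV n D → R) :
    pol (fun q => ∑ i ∈ s, g i q) = ∑ i ∈ s, pol (g i) := by
  simp only [pol]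
  rw [Finset.sum_comm]
  exact Finset.sum_congr rfl fun q _ => map_sum _ _ _

lemma cf_add (P Q : MvPolynomial (Fin n) R) : cf D (P + Q) = cf D P + cf D Q := by
  funext q
  simp [cf]

lemma cf_C_mul (a : R) (P : MvPolynomial (Fin n) R) (q : MonV n D) :
    cf D (C a * P) q = a * cf D P q := by
  simp [cf]

lemma cf_sum {ι : Type*} (s : Finset ι) (P : ι → MvPolynomial (Fin n) R) (q : MonV n D) :
    cf D (∑ i ∈ s, P i) q = ∑ i ∈ s, cf D (P i) q := by
  rw [cf, coeff_sum]
  rfl

lemma cf_map {S : Type v} [CommRing S] (φ : R →+* S) (P : MvPolynomial (Fin n) R) (q : MonV n D) :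
    cf D (map φ P) q = φ (cf D P q) := coeff_map _ _ _

lemma map_polX {S : Type v} [CommRing S] (φ : R →+* S) {N m : ℕ} (c : Fin (m + 1) → R) :
    map φ (polX (N := N) c) = polX fun i => φ (c i) := by
  rw [polX, polX, map_sum]
  exact Finset.sum_congr rfl fun i _ => by rw [map_mul, map_C, map_pow, map_X]

lemma map_inc {S : Type v} [CommRing S] (φ : R →+* S) {N : ℕ} (P : MvPolynomial (Fin 2) R) :
    map φ (inc N P) = inc N (map φ P) := by
  have h : (map φ : MvPolynomial (Fin (N + 2)) R →+* _).comp (inc N) = (inc N).comp (map φ) := by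
    refine MvPolynomial.ringHom_ext (fun a => ?_) fun i => ?_
    · simp [inc]
    · fin_cases i <;> simp [inc]
  exact congrArg (fun F : MvPolynomial (Fin 2) R →+* _ => F P) h

lemma inc_C {N : ℕ} (a : R) : inc N (C a) = C a := by
  simp [inc]

lemma inc_X0 {N : ℕ} : inc N (X 0 : MvPolynomial (Fin 2) R) = X 0 := by
  simp [inc]

lemma inc_X1 {N : ℕ} : inc N (X 1 : MvPolynomial (Fin 2) R) = X 1 := by
  simp [inc]

lemma inc_monomial {N : ℕ} (s : Fin 2 →₀ ℕ) (a : R) : inc N (monomial s a) =
    monomial (Finsupp.single (0 : Fin (N + 2)) (s 0) + Finsupp.single 1 (s 1)) a := by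
  rw [monomial_eq, map_mul, inc_C, Finsupp.prod_fintype _ _ (fun _ => pow_zero _),
    Fin.prod_univ_two, map_mul, map_pow, map_pow, inc_X0, inc_X1, X_pow_eq_monomial,
    X_pow_eq_monomial, monomial_mul, C_mul_monomial, one_mul, mul_one]

lemma totalDegree_inc_le {N D : ℕ} {P : MvPolynomial (Fin 2) R} (hP : P.totalDegree ≤ D) :
    (inc N P).totalDegree ≤ D := by
  classical
  rw [P.as_sum, map_sum]
  refine totalDegree_finsetSum_le fun s hs => ?_
  rw [inc_monomial]
  refine (totalDegree_monomial_le _ _).trans ?_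
  have h2 := (le_totalDegree hs).trans hP
  rw [Finsupp.sum_fintype _ _ (fun _ => rfl), Fin.sum_univ_two] at h2
  change (Finsupp.single (0 : Fin (N + 2)) (s 0) + Finsupp.single 1 (s 1)).degree ≤ D
  rw [map_add, Finsupp.degree_single, Finsupp.degree_single]
  exact h2

end Pool.Agent.BT
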