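import Pool.Agent.Helper10.PL.Eqn
import Pool.Agent.Helper10.BT.Pol

/-!
# BERTINI: the equation `∏ G i = T W ^ p + ∑ H u F u` and its derivative
-/

universe u v

namespace Pool.Agent.BT

open MvPolynomial

/-- indices of the unknown coefficients of the `G^(l)`, of `W` and of the `H u` -/
abbrev Unk (n a k D : ℕ) (V : Type) : Type :=
  (Fin (a + 1) × MonV n a) ⊕ (MonV n k ⊕ (V × MonV n D))

section Sys

variable {R : Type u} [CommRing R] {n a k D d : ℕ} {V : Type} [Fintype V] {e : V → ℕ}

/-- the coefficients of `G i` -/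
def GG {V : Type} (γ : Fin d → R) (z : Unk n a k D V → R) (i : Fin d) : MonV n a → R :=
  fun q => ∑ l : Fin (a + 1), γ i ^ (l : ℕ) * z (Sum.inl (l, q))

/-- the coefficients of `W` -/
def WW {V : Type} (z : Unk n a k D V → R) : MonV n k → R := fun q => z (Sum.inr (Sum.inl q))

/-- the coefficients of `H u`, up to the degree `D - e u` -/
noncomputable def HH {V : Type} (e : V → ℕ) (z : Unk n a k D V → R) (u : V) : MonV n D → R :=
  fun q => if q.1.degree + e u ≤ D then z (Sum.inr (Sum.inr (u, q))) else 0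

omit [Fintype V] in
lemma GG_add (γ : Fin d → R) (z w : Unk n a k D V → R) (η : R) (i : Fin d) :
    pol (GG γ (fun b => z b + η * w b) i) = pol (GG γ z i) + C η * pol (GG γ w i) := by
  rw [← pol_smul, ← pol_add]
  congr 1
  funext q
  simp only [GG]
  rw [Finset.mul_sum, ← Finset.sum_add_distrib]
  exact Finset.sum_congr rfl fun l _ => by ring

omit [Fintype V] in
lemma WW_add (z w : Unk n a k D V → R) (η : R) :
    pol (WW (fun b => z b + η * w b)) = pol (WW z) + C η * pol (WW w) := by
  rw [← pol_smul, ← pol_add]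
  rfl

omit [Fintype V] in
lemma HH_add (z w : Unk n a k D V → R) (η : R) (u : V) :
    pol (HH e (fun b => z b + η * w b) u) = pol (HH e z u) + C η * pol (HH e w u) := by
  rw [← pol_smul, ← pol_add]
  congr 1
  funext q
  simp only [HH]
  split_ifs
  · rfl
  · ring

/-- the equation -/
noncomputable def EE (e : V → ℕ) (p : ℕ) (γ : Fin d → R) (T : R) (F : V → MvPolynomial (Fin n) R)
    (z : Unk n a k D V → R) : MvPolynomial (Fin n) R :=
  ∏ i, pol (GG γ z i) - C T * pol (WW z) ^ p - ∑ u, pol (HH e z u) * F u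

/-- the derivative of the equation -/
noncomputable def JJ (e : V → ℕ) (p : ℕ) (γ : Fin d → R) (T : R) (F : V → MvPolynomial (Fin n) R)
    (z δ : Unk n a k D V → R) : MvPolynomial (Fin n) R :=
  ∑ i, pol (GG γ δ i) * ∏ j ∈ Finset.univ.erase i, pol (GG γ z j) -
    (p : MvPolynomial (Fin n) R) * C T * pol (WW δ) * pol (WW z) ^ (p - 1) -
    ∑ u, pol (HH e δ u) * F u

lemma EE_taylor (p : ℕ) (γ : Fin d → R) (T : R) (F : V → MvPolynomial (Fin n) R)
    (z δ : Unk n a k D V → R) (η : R) : ∃ c : MvPolynomial (Fin n) R,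
    EE e p γ T F (fun b => z b + η * δ b) =
      EE e p γ T F z + C η * JJ e p γ T F z δ + C η ^ 2 * c := by
  classical
  obtain ⟨c1, h1⟩ := PC.prod_taylor Finset.univ (fun i => pol (GG γ z i))
    (fun i => pol (GG γ δ i)) (C η)
  obtain ⟨c2, h2⟩ := PC.pow_taylor (pol (WW z)) (pol (WW δ)) (C η) p
  refine ⟨c1 - C T * c2, ?_⟩
  simp only [EE, JJ, GG_add, WW_add, HH_add]
  have h3 : ∑ u, (pol (HH e z u) + C η * pol (HH e δ u)) * F u =
      ∑ u, pol (HH e z u) * F u + C η * ∑ u, pol (HH e δ u) * F u := by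
    rw [Finset.mul_sum, ← Finset.sum_add_distrib]
    exact Finset.sum_congr rfl fun u _ => by ring
  rw [h1, h2, h3]
  ring

lemma JJ_add (p : ℕ) (γ : Fin d → R) (T : R) (F : V → MvPolynomial (Fin n) R)
    (z δ δ' : Unk n a k D V → R) (η : R) :
    JJ e p γ T F z (fun b => δ b + η * δ' b) = JJ e p γ T F z δ + C η * JJ e p γ T F z δ' := by
  simp only [JJ, GG_add, WW_add, HH_add]
  have h1 : ∑ i, (pol (GG γ δ i) + C η * pol (GG γ δ' i)) *
      ∏ j ∈ Finset.univ.erase i, pol (GG γ z j) =
      ∑ i, pol (GG γ δ i) * ∏ j ∈ Finset.univ.erase i, pol (GG γ z j) +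
      C η * ∑ i, pol (GG γ δ' i) * ∏ j ∈ Finset.univ.erase i, pol (GG γ z j) := by
    rw [Finset.mul_sum, ← Finset.sum_add_distrib]
    exact Finset.sum_congr rfl fun i _ => by ring
  have h3 : ∑ u, (pol (HH e δ u) + C η * pol (HH e δ' u)) * F u =
      ∑ u, pol (HH e δ u) * F u + C η * ∑ u, pol (HH e δ' u) * F u := by
    rw [Finset.mul_sum, ← Finset.sum_add_distrib]
    exact Finset.sum_congr rfl fun u _ => by ring
  rw [h1, h3]
  ring

lemma JJ_zero (p : ℕ) (γ : Fin d → R) (T : R) (F : V → MvPolynomial (Fin n) R)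
    (z : Unk n a k D V → R) : JJ e p γ T F z (fun _ => 0) = 0 := by
  have h1 := JJ_add (e := e) p γ T F z (fun _ => 0) (fun _ => 0) 1
  simp only [mul_zero, add_zero, C_1, one_mul] at h1
  exact left_eq_add.mp h1

/-- the derivative as a linear map -/
noncomputable def JJl (e : V → ℕ) (p : ℕ) (γ : Fin d → R) (T : R)
    (F : V → MvPolynomial (Fin n) R) (z : Unk n a k D V → R) :
    (Unk n a k D V → R) →ₗ[R] MvPolynomial (Fin n) R where
  toFun := JJ e p γ T F z
  map_add' δ δ' := by
    have h1 := JJ_add (e := e) p γ T F z δ δ' 1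
    simp only [one_mul, C_1] at h1
    exact h1
  map_smul' η δ := by
    have h1 := JJ_add (e := e) p γ T F z (fun _ => 0) δ η
    simp only [zero_add, JJ_zero] at h1
    rw [RingHom.id_apply, smul_eq_C_mul]
    exact h1

omit [Fintype V] in
lemma map_GG {S : Type v} [CommRing S] (φ : R →+* S) (γ : Fin d → R) (z : Unk n a k D V → R)
    (i : Fin d) : map φ (pol (GG γ z i)) = pol (GG (fun i => φ (γ i)) (fun b => φ (z b)) i) := by
  rw [map_pol]
  congr 1
  funext q
  simp only [GG]
  rw [map_sum]
  exact Finset.sum_congr rfl fun l _ => by rw [map_mul, map_pow]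

omit [Fintype V] in
lemma map_HH {S : Type v} [CommRing S] (φ : R →+* S) (z : Unk n a k D V → R)
    (u : V) : map φ (pol (HH e z u)) = pol (HH e (fun b => φ (z b)) u) := by
  rw [map_pol]
  congr 1
  funext q
  simp only [HH]
  split_ifs
  · rfl
  · exact map_zero φ

omit [Fintype V] in
lemma map_WW {S : Type v} [CommRing S] (φ : R →+* S) (z : Unk n a k D V → R) :
    map φ (pol (WW z)) = pol (WW fun b => φ (z b)) := map_pol φ _

lemma map_EE {S : Type v} [CommRing S] (φ : R →+* S) (p : ℕ) (γ : Fin d → R) (T : R)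
    (F : V → MvPolynomial (Fin n) R) (z : Unk n a k D V → R) : map φ (EE e p γ T F z) =
      EE e p (fun i => φ (γ i)) (φ T) (fun u => map φ (F u)) (fun b => φ (z b)) := by
  rw [EE, EE, map_sub, map_sub, map_prod, map_mul, map_pow, map_C, map_WW, map_sum]
  simp only [map_GG, map_mul, map_HH]

lemma map_JJ {S : Type v} [CommRing S] (φ : R →+* S) (p : ℕ) (γ : Fin d → R) (T : R)
    (F : V → MvPolynomial (Fin n) R) (z δ : Unk n a k D V → R) : map φ (JJ e p γ T F z δ) =
      JJ e p (fun i => φ (γ i)) (φ T) (fun u => map φ (F u)) (fun b => φ (z b))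
        (fun b => φ (δ b)) := by
  rw [JJ, JJ, map_sub, map_sub, map_sum, map_sum, map_mul, map_mul, map_mul, map_pow, map_C,
    map_WW, map_WW, map_natCast]
  simp only [map_mul, map_prod, map_GG, map_HH]

omit [Fintype V] in
lemma totalDegree_HH_mul_le {F : V → MvPolynomial (Fin n) R} (hF : ∀ u, (F u).totalDegree ≤ e u)
    (z : Unk n a k D V → R) (u : V) : (pol (HH e z u) * F u).totalDegree ≤ D := by
  by_cases hu : e u ≤ D
  · have h1 : (pol (HH e z u)).totalDegree ≤ D - e u := by
      rw [totalDegree_le_iff]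
      intro s hs
      by_cases hs' : s.degree ≤ D
      · have h2 := coeff_pol (HH e z u) ⟨s, hs'⟩
        refine h2.trans ?_
        change (if s.degree + e u ≤ D then _ else _) = _
        rw [if_neg (by omega)]
      · exact coeff_pol_of _ (by omega)
    refine (totalDegree_mul _ _).trans ?_
    have := hF u
    omega
  · have h1 : pol (HH e z u) = 0 := by
      have h2 : HH e z u = fun _ => 0 := by
        funext q
        simp only [HH]
        rw [if_neg (by omega)]
      rw [h2, pol_zero]
    rw [h1, zero_mul, totalDegree_zero]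
    exact Nat.zero_le _

lemma totalDegree_EE_le {p : ℕ} (γ : Fin d → R) (T : R) {F : V → MvPolynomial (Fin n) R}
    (hF : ∀ u, (F u).totalDegree ≤ e u) (ha : d * a ≤ D) (hk : p * k ≤ D)
    (z : Unk n a k D V → R) : (EE e p γ T F z).totalDegree ≤ D := by
  rw [EE]
  refine (totalDegree_sub _ _).trans (max_le ((totalDegree_sub _ _).trans (max_le ?_ ?_)) ?_)
  · refine (totalDegree_finsetProd _ _).trans ?_
    refine (Finset.sum_le_sum fun i _ => totalDegree_pol_le (GG γ z i)).trans ?_
    rw [Finset.sum_const, smul_eq_mul, Finset.card_univ, Fintype.card_fin]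
    exact ha
  · refine (totalDegree_mul _ _).trans ?_
    rw [totalDegree_C, zero_add]
    refine (totalDegree_pow _ _).trans ?_
    exact (Nat.mul_le_mul_left p (totalDegree_pol_le _)).trans hk
  · exact totalDegree_finsetSum_le fun u _ => totalDegree_HH_mul_le hF z u

end Sys

end Pool.Agent.BT
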