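import Pool.Agent.Helper10.PL.L1

/-!
# BT: the linearised equation has a solution, with slack `c`
-/

namespace PL

open Polynomial

variable {A : Type*} [Field A]

/-- The linearised equation, with slack `s`. -/
theorem linearised_slack {d m p s : ℕ} (hd : 0 < d) (hm : d + s ≤ m + 1) (hp : 1 ≤ p) (hpd : p ∣ d)
    {g : Fin d → A} (hg : Function.Injective g) (hc : ∀ i j, g i + 1 ≠ g j) {a T : A}
    (ha : a ≠ 0) (hT : T ≠ 0) (hpA : (p : A) ≠ 0) (F : A[X][X]) (hF : TD (d * (1 + p * m) - s) F) :
    ∃ (δG : Fin d → A[X][X]) (δW δH : A[X][X]), (∀ i, TD (1 + p * m - s) (δG i)) ∧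
      TD (d / p * (1 + p * m) - s) δW ∧ TD (p * (d * m) - s) δH ∧
      F = C (C a) * ∑ i, δG i * ∏ j ∈ Finset.univ.erase i, C (PP (g j) (p * m)) -
        C (C (T * p)) * δW * W0 g m p ^ (p - 1) - δH * f0 g a T := by
  classical
  obtain ⟨e, he⟩ := hpd
  have hdp : d / p = e := by rw [he]; exact Nat.mul_div_cancel_left _ (by omega)
  -- solutions are closed under sums
  let Sol : A[X][X] → Prop := fun F => ∃ (δG : Fin d → A[X][X]) (δW δH : A[X][X]),
    (∀ i, TD (1 + p * m - s) (δG i)) ∧
      TD (d / p * (1 + p * m) - s) δW ∧ TD (p * (d * m) - s) δH ∧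
      F = C (C a) * ∑ i, δG i * ∏ j ∈ Finset.univ.erase i, C (PP (g j) (p * m)) -
        C (C (T * p)) * δW * W0 g m p ^ (p - 1) - δH * f0 g a T
  have hadd : ∀ F F', Sol F → Sol F' → Sol (F + F') := by
    rintro F F' ⟨G, W, H, h1, h2, h3, h4⟩ ⟨G', W', H', h1', h2', h3', h4'⟩
    refine ⟨fun i => G i + G' i, W + W', H + H', fun i => (h1 i).add (h1' i), h2.add h2',
      h3.add h3', ?_⟩
    rw [h4, h4', Finset.sum_congr rfl fun i _ => add_mul (G i) (G' i) _, Finset.sum_add_distrib]
    ring
  have hzero : Sol 0 := ⟨0, 0, 0, fun i => TD.zero, TD.zero, TD.zero, by simp⟩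
  have hsum : ∀ (s : Finset (Fin d)) (f : Fin d → A[X][X]), (∀ i ∈ s, Sol (f i)) →
      Sol (∑ i ∈ s, f i) := by
    intro s f
    induction s using Finset.induction_on with
    | empty => intro _; rw [Finset.sum_empty]; exact hzero
    | insert b s hb ih =>
      intro h
      rw [Finset.sum_insert hb]
      exact hadd _ _ (h b (Finset.mem_insert_self b s))
        (ih fun i hi => h i (Finset.mem_insert_of_mem hi))
  have hhdeg : (C a * ∏ i, (X - C (g i)) : A[X]).natDegree ≤ d := by
    refine (natDegree_C_mul_le _ _).trans ?_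
    rw [natDegree_prod_of_monic _ _ fun i _ => monic_X_sub_C (g i)]
    simp
  have hdm : d * (1 + p * m) = d + p * (d * m) := by ring
  have hpdm : m ≤ p * (d * m) := by
    have h1 : 1 * (1 * m) ≤ p * (d * m) := Nat.mul_le_mul hp (Nat.mul_le_mul_right m hd)
    omega
  have hdN : d ≤ d * (1 + p * m) - s := by omega
  obtain ⟨Q, al, hQ, hal, hFeq⟩ := exists_reduce hd hdN hT hhdeg F hF
  change Sol F
  rw [hFeq]
  refine hadd _ _ ?_ (hsum _ _ fun l _ => ?_)
  · refine ⟨0, 0, -Q, fun i => TD.zero, TD.zero, ?_, ?_⟩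
    · refine hQ.neg.mono ?_
      omega
    · rw [f0]
      simp only [Pi.zero_apply, zero_mul, Finset.sum_const_zero, mul_zero, sub_zero]
      ring
  · rcases hal l with h0 | hl
    · rw [h0, C_0, zero_mul]
      exact hzero
    obtain ⟨c, r, q, hlc, hr, hq, haeq⟩ := exists_pf (m := m) (p := p) (l := (l : ℕ) + s) hg hc hp
      (by have := l.2; omega) (al l) (by omega)
    let i0 : Fin d := ⟨0, hd⟩
    refine ⟨fun i => C (C a⁻¹) * (C (r i) * X ^ (l : ℕ) +
        if i = i0 then C (C c) * C (PP (g i) (p * m)) * X ^ (l : ℕ) else 0),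
      C (C (-(p * a)⁻¹)) * (C q * X ^ ((l : ℕ) + d / p)),
      C (C (-a⁻¹)) * (C (q * ∏ i, (X - C (g i + 1)) ^ ((p - 1) * m)) * X ^ (l : ℕ)), ?_, ?_, ?_, ?_⟩
    · intro i
      refine ((TD.C (N := 0) (by rw [natDegree_C])).mul ?_).mono (by omega : 0 + (1 + p * m - s) ≤ _)
      refine (TD.C_mul_X_pow ((hr i).imp_right fun h => by omega)).add ?_
      split_ifs with hi
      · rcases hlc with h | h
        · have hl0 : (l : ℕ) = 0 := by omega
          rw [hl0, pow_zero, mul_one, ← C_mul]
          refine TD.C ((natDegree_C_mul_le _ _).trans ?_)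
          rw [natDegree_PP]
          omega
        · rw [h, C_0, C_0, zero_mul, zero_mul]
          exact TD.zero
      · exact TD.zero
    · refine ((TD.C (N := 0) (by rw [natDegree_C])).mul (N := d / p * (1 + p * m) - s) ?_).mono
        (by omega)
      refine TD.C_mul_X_pow ?_
      rcases hq with h | h
      · exact Or.inl h
      · right
        have h1 : d / p * (1 + p * m) = d / p + d * m := by
          rw [hdp, he]
          ring
        omega
    · refine ((TD.C (N := 0) (by rw [natDegree_C])).mul (N := p * (d * m) - s) ?_).mono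
        (by omega)
      refine TD.C_mul_X_pow ?_
      rcases hq with h | h
      · exact Or.inl (by rw [h, zero_mul])
      · right
        have h1 : (q * ∏ i, (X - C (g i + 1)) ^ ((p - 1) * m)).natDegree ≤
            q.natDegree + d * ((p - 1) * m) := by
          refine natDegree_mul_le.trans ?_
          gcongr
          rw [natDegree_prod_of_monic _ _ fun i _ => (monic_X_sub_C _).pow _,
            Finset.sum_congr rfl fun i _ => (monic_X_sub_C (g i + 1)).natDegree_pow _,
            Finset.sum_congr rfl fun i _ => by rw [natDegree_X_sub_C, mul_one],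
            Finset.sum_const, smul_eq_mul, Finset.card_univ, Fintype.card_fin]
        have h2 : d * m + d * ((p - 1) * m) = p * (d * m) := by
          obtain ⟨p', rfl⟩ : ∃ p', p = p' + 1 := ⟨p - 1, by omega⟩
          rw [Nat.add_sub_cancel]
          ring
        omega
    · -- the identity
      set P : A[X][X] := ∏ i, C (PP (g i) (p * m)) with hP
      have hCprod : ∀ (s : Finset (Fin d)) (f : Fin d → A[X]), C (∏ i ∈ s, f i) = ∏ i ∈ s, C (f i) :=
        fun s f => map_prod C f s
      have hsum1 : (∑ i, C (C a⁻¹) * (C (r i) * X ^ (l : ℕ) +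
          if i = i0 then C (C c) * C (PP (g i) (p * m)) * X ^ (l : ℕ) else 0) *
          ∏ j ∈ Finset.univ.erase i, C (PP (g j) (p * m)) : A[X][X]) =
          C (C a⁻¹) * ((∑ i, C (r i) * ∏ j ∈ Finset.univ.erase i, C (PP (g j) (p * m))) + C (C c) * P)
            * X ^ (l : ℕ) := by
        have e1 : ∀ i : Fin d, (C (C a⁻¹) * (C (r i) * X ^ (l : ℕ) +
          if i = i0 then C (C c) * C (PP (g i) (p * m)) * X ^ (l : ℕ) else 0) *
          ∏ j ∈ Finset.univ.erase i, C (PP (g j) (p * m)) : A[X][X]) =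
            C (C a⁻¹) * (C (r i) * ∏ j ∈ Finset.univ.erase i, C (PP (g j) (p * m))) * X ^ (l : ℕ) +
            if i = i0 then C (C a⁻¹) * (C (C c) * P) * X ^ (l : ℕ) else 0 := by
          intro i
          by_cases hi : i = i0
          · rw [if_pos hi, if_pos hi, hP, ← Finset.mul_prod_erase Finset.univ _ (Finset.mem_univ i)]
            ring
          · rw [if_neg hi, if_neg hi]
            ring
        rw [Finset.sum_congr rfl fun i _ => e1 i, Finset.sum_add_distrib, Finset.sum_ite_eq' Finset.univ i0,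
          if_pos (Finset.mem_univ _), ← Finset.sum_mul, ← Finset.mul_sum]
        ring
      have hmain : (C (al l) : A[X][X]) = C (C c) * P +
          (∑ i, C (r i) * ∏ j ∈ Finset.univ.erase i, C (PP (g j) (p * m))) +
          C (∏ i, PP (g i) ((p - 1) * m)) * C q := by
        have e2 : (C (∑ i, r i * ∏ j ∈ Finset.univ.erase i, PP (g j) (p * m)) : A[X][X]) =
            ∑ i, C (r i) * ∏ j ∈ Finset.univ.erase i, C (PP (g j) (p * m)) := by
          rw [map_sum]
          refine Finset.sum_congr rfl fun i _ => ?_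
          rw [C_mul, hCprod]
        rw [haeq, C_add, C_add, C_mul, C_mul, hCprod, e2]
      have ha1 : (C (C a) : A[X][X]) * C (C a⁻¹) = 1 := by
        rw [← C_mul, ← C_mul, mul_inv_cancel₀ ha, C_1, C_1]
      have hW : (W0 g m p ^ (p - 1) : A[X][X]) =
          C (∏ i, (X - C (g i + 1)) ^ ((p - 1) * m)) * X ^ (d / p * (p - 1)) := by
        have e2 : (∏ i, (X - C (g i + 1)) ^ m : A[X]) ^ (p - 1) =
            ∏ i, (X - C (g i + 1)) ^ ((p - 1) * m) := by
          rw [← Finset.prod_pow]
          refine Finset.prod_congr rfl fun i _ => ?_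
          rw [← pow_mul, mul_comm]
        rw [W0, mul_pow, ← C_pow, e2, ← pow_mul]
      have hPE : (∏ i, PP (g i) ((p - 1) * m) : A[X]) =
          (∏ i, (X - C (g i))) * ∏ i, (X - C (g i + 1)) ^ ((p - 1) * m) := by
        rw [← Finset.prod_mul_distrib]
        rfl
      have hTp : (C (C (T * p)) : A[X][X]) * C (C (-(p * a)⁻¹)) = - (C (C T) * C (C a⁻¹)) := by
        rw [← C_mul, ← C_mul, ← C_mul, ← C_mul, ← C_neg, ← C_neg]
        congr 2
        field_simp
      have hdd : (l : ℕ) + d / p + d / p * (p - 1) = l + d := by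
        have h1 : e + e * (p - 1) = d := by
          rw [he]
          obtain ⟨p', hp'⟩ : ∃ p', p = p' + 1 := ⟨p - 1, by omega⟩
          rw [hp', Nat.add_sub_cancel]
          ring
        rw [hdp]
        omega
      have hneg : (C (C (-a⁻¹)) : A[X][X]) = - C (C a⁻¹) := by rw [C_neg, C_neg]
      rw [hsum1, hW, f0, hmain, hPE]
      have e3 : C (C (T * p)) * (C (C (-(p * a)⁻¹)) * (C q * X ^ ((l : ℕ) + d / p))) *
          (C (∏ i, (X - C (g i + 1)) ^ ((p - 1) * m)) * X ^ (d / p * (p - 1))) =
          - (C (C T) * C (C a⁻¹)) * C q * C (∏ i, (X - C (g i + 1)) ^ ((p - 1) * m)) *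
            X ^ ((l : ℕ) + d) := by
        rw [← hdd, pow_add _ ((l : ℕ) + d / p), ← hTp]
        ring
      rw [e3, hneg, C_mul (a := q), C_mul (a := C a), C_mul (a := ∏ i, (X - C (g i))), pow_add]
      linear_combination (X ^ (l : ℕ) * (-((∑ i, C (r i) * ∏ j ∈ Finset.univ.erase i,
        C (PP (g j) (p * m))) + C (C c) * P) - C (∏ i, (X - C (g i))) *
        C (∏ i, (X - C (g i + 1)) ^ ((p - 1) * m)) * C q)) * ha1

end PL
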