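import Pool.Agent.Helper10.BT.Sol

/-!
# BERTINI: block SOL, final form
-/

universe u v

namespace Pool.Agent.BT

open MvPolynomial

section Perm

variable {R : Type u} [CommRing R] {n a k D d : ℕ} {V : Type} [Fintype V] {e : V → ℕ}

lemma EE_perm (p : ℕ) (γ : Fin d → R) (T : R) (F : V → MvPolynomial (Fin n) R)
    (ε : Equiv.Perm (Fin d)) (z : Unk n a k D V → R) :
    EE e p (fun i => γ (ε i)) T F z = EE e p γ T F z := by
  rw [EE, EE]
  congr 2
  exact Equiv.prod_comp ε fun i => pol (GG γ z i)

end Perm

section Alg

/-- the algebraic elements are closed under the operations of the special solution -/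
lemma isAlgebraic_z0 {L : Type u} [Field L] (K : Subfield L) {N d p r m : ℕ} {U : Type}
    {γ : Fin d → L}
    (hγ : ∀ i, IsAlgebraic K (γ i)) (u : Unk (N + 2) (1 + p * m) (r * (1 + p * m)) (d * (1 + p * m)) (Option U)) :
    IsAlgebraic K (z0 N p r m U γ u) := by
  let K' := algebraicClosure K L
  let γ' : Fin d → K' := fun i => ⟨γ i, mem_algebraicClosure_iff.mpr (hγ i)⟩
  have h1 := map_z0 (N := N) (U := U) (p := p) (r := r) (m := m) (algebraMap K' L) γ' u
  have h2 : (fun i => algebraMap K' L (γ' i)) = γ := rfl
  rw [h2] at h1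
  rw [← h1]
  exact mem_algebraicClosure_iff.mp (z0 N p r m U γ' u).2

end Alg

section Sol

variable {A : Type u} [Field A] [CharZero A] {N d p r m c : ℕ} {U : Type} [Fintype U] {e : U → ℕ}

open PowerSeries in
theorem exists_sol (hp : p.Prime) (hd : d = p * r) (hd0 : 0 < d) (hm : d + c ≤ m) {T : A}
    (hT : T ≠ 0) {γ : Fin d → A} (hγ : Function.Injective γ) (hγ1 : ∀ i j, γ i ≠ γ j + 1)
    (f : MonV (N + 2) d → PowerSeries A) (rel : ∀ u, MonV (N + 2) (e u) → PowerSeries A)
    (hf : pol (fun q => PowerSeries.constantCoeff (f q)) = inc N (PC.f0 γ T))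
    (hrel : Noe (fun u q => PowerSeries.constantCoeff (rel u q)) c) :
    ∃ (G : Fin d → MonV (N + 2) (1 + p * m) → PowerSeries A)
      (W : MonV (N + 2) (r * (1 + p * m)) → PowerSeries A)
      (H : MonV (N + 2) (d * (1 + p * m)) → PowerSeries A)
      (H' : U → MonV (N + 2) (d * (1 + p * m)) → PowerSeries A),
      ∏ i, pol (G i) = MvPolynomial.C (PowerSeries.C T) * pol W ^ p + comb f rel H H' ∧
      (∀ i, pol (fun q => PowerSeries.constantCoeff (G i q)) = inc N (PC.G0 p m (γ i))) ∧
      (∀ (ρ : A ≃+* A) (e : Equiv.Perm (Fin d)), ρ T = T → (∀ i, ρ (γ i) = γ (e i)) →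
        (∀ q, PowerSeries.map (ρ : A →+* A) (f q) = f q) →
        (∀ u q, PowerSeries.map (ρ : A →+* A) (rel u q) = rel u q) →
        (∀ i q, PowerSeries.map (ρ : A →+* A) (G i q) = G (e i) q) ∧
        (∀ q, PowerSeries.map (ρ : A →+* A) (W q) = W q) ∧
        (∀ q, PowerSeries.map (ρ : A →+* A) (H q) = H q) ∧
        (∀ u q, PowerSeries.map (ρ : A →+* A) (H' u q) = H' u q)) ∧
      ∀ {L : Type u} [Field L] (φ : PowerSeries A →+* L), Function.Injective φ →
        ∀ K : Subfield L, φ (PowerSeries.C T) ∈ K →
        (∀ i, IsAlgebraic K (φ (PowerSeries.C (γ i)))) → (∀ q, φ (f q) ∈ K) →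
        (∀ u q, φ (rel u q) ∈ K) →
        (∀ u q, φ (PowerSeries.C (PowerSeries.constantCoeff (rel u q))) ∈ K) →
        (∀ i q, IsAlgebraic K (φ (G i q))) ∧ (∀ q, IsAlgebraic K (φ (W q))) ∧
        (∀ q, IsAlgebraic K (φ (H q))) ∧ (∀ u q, IsAlgebraic K (φ (H' u q))) := by
  classical
  obtain ⟨κ, _, a, M, Nm, ha, hsys⟩ := exists_sys hp hd hd0 hm hT hγ hγ1 f rel hf hrel
  obtain ⟨y, hy, hE⟩ := hsys.exists_solution
  have huniq : ∀ y' : κ → A⟦X⟧, (∀ b, PowerSeries.X ∣ y' b - PowerSeries.C 0) →
      (∀ v, cf (d * (1 + p * m)) (EE (eO d e) p (fun i => PowerSeries.C (γ i))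
          (PowerSeries.C T) (relO f rel) fun u => PowerSeries.C (z0 N p r m U γ u) + PC.ex a y' u) v = 0) → y' = y :=
    fun y' h1 h2 => hsys.unique hy hE h1 h2
  set z : Unk (N + 2) (1 + p * m) (r * (1 + p * m)) (d * (1 + p * m)) (Option U) → A⟦X⟧ :=
    fun u => PowerSeries.C (z0 N p r m U γ u) + PC.ex a y u with hz
  have hy0 : ∀ b, PowerSeries.constantCoeff (y b) = 0 := by
    intro b
    have h1 := hy b
    rw [map_zero, sub_zero, PowerSeries.X_dvd_iff] at h1
    exact h1
  have hdeg : ∀ w : Unk (N + 2) (1 + p * m) (r * (1 + p * m)) (d * (1 + p * m)) (Option U) → A⟦X⟧,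
      (EE (eO d e) p (fun i => PowerSeries.C (γ i)) (PowerSeries.C T) (relO f rel) w).totalDegree ≤
        d * (1 + p * m) := fun w => by
    refine totalDegree_EE_le _ _ (totalDegree_relO_le f rel) le_rfl ?_ w
    rw [hd]
    exact le_of_eq (by ring)
  have hEz : EE (eO d e) p (fun i => PowerSeries.C (γ i)) (PowerSeries.C T) (relO f rel) z = 0 := by
    rw [← pol_cf (hdeg z), show cf (d * (1 + p * m)) (EE (eO d e) p (fun i => PowerSeries.C (γ i))
      (PowerSeries.C T) (relO f rel) z) = fun _ => 0 from funext hE, pol_zero]
  have hzc : (fun u => PowerSeries.constantCoeff (z u)) = z0 N p r m U γ := by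
    funext u
    rw [hz]
    change PowerSeries.constantCoeff (PowerSeries.C (z0 N p r m U γ u) + PC.ex a y u) = _
    rw [map_add, PowerSeries.constantCoeff_C, PC.map_ex, funext hy0, PC.ex_zero, add_zero]
  refine ⟨GG (fun i => PowerSeries.C (γ i)) z, WW z, HH (eO d e) z none,
    fun u => HH (eO d e) z (some u), ?_, ?_, ?_, ?_⟩
  · rw [EE, Fintype.sum_option] at hEz
    change _ = _ + (pol (HH (eO d e) z none) * pol f +
      ∑ u, pol (HH (eO d e) z (some u)) * pol (rel u))
    change _ - _ - (pol (HH (eO d e) z none) * pol f +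
      ∑ u, pol (HH (eO d e) z (some u)) * pol (rel u)) = 0 at hEz
    linear_combination hEz
  · intro i
    have h1 := map_GG (PowerSeries.constantCoeff (R := A)) (fun i => PowerSeries.C (γ i)) z i
    rw [map_pol, hzc] at h1
    rw [h1]
    simp only [PowerSeries.constantCoeff_C]
    exact pol_GG_z0 γ i
  · intro ρ ε hρT hργ hρf hρrel
    set Φ := PowerSeries.map (ρ : A →+* A) with hΦ
    have hΦC : ∀ c : A, Φ (PowerSeries.C c) = PowerSeries.C (ρ c) := fun c => by
      rw [hΦ, PowerSeries.map_C]
      rfl
    have hρz0 : ∀ u, ρ (z0 N p r m U γ u) = z0 N p r m U γ u := by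
      intro u
      have h1 := map_z0 (N := N) (U := U) (p := p) (r := r) (m := m) (ρ : A →+* A) γ u
      have h2 : (fun i => (ρ : A →+* A) (γ i)) = fun i => γ (ε i) := funext hργ
      rw [h2, z0_perm] at h1
      exact h1
    have hzΦ : (fun u => Φ (z u)) =
        fun u => PowerSeries.C (z0 N p r m U γ u) + PC.ex a (fun b => Φ (y b)) u := by
      funext u
      rw [hz]
      change Φ (PowerSeries.C (z0 N p r m U γ u) + PC.ex a y u) = _
      rw [map_add, hΦC, hρz0, PC.map_ex]
    have hyΦ : (fun b => Φ (y b)) = y := by
      refine huniq _ (fun b => ?_) fun v => ?_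
      · rw [map_zero, sub_zero, PowerSeries.X_dvd_iff, hΦ, ← PowerSeries.coeff_zero_eq_constantCoeff_apply,
          PowerSeries.coeff_map, PowerSeries.coeff_zero_eq_constantCoeff_apply, hy0, map_zero]
      · rw [← hzΦ]
        have h1 : map Φ (EE (eO d e) p (fun i => PowerSeries.C (γ i)) (PowerSeries.C T) (relO f rel) z) = 0 := by
          rw [hEz, map_zero]
        rw [map_EE, hΦC, hρT] at h1
        have h2 : (fun u => map Φ (relO f rel u)) = relO f rel := by
          funext u
          rw [map_relO]
          congr 1
          · funext q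
            exact hρf q
          · funext u q
            exact hρrel u q
        have h3 : (fun i => Φ (PowerSeries.C (γ i))) = fun i => PowerSeries.C (γ (ε i)) := by
          funext i
          rw [hΦC, hργ]
        rw [h2, h3, EE_perm p (fun i => PowerSeries.C (γ i)) _ _ ε] at h1
        rw [h1]
        simp [cf]
    have hzfix : ∀ u, Φ (z u) = z u := by
      intro u
      have h1 := congrFun hzΦ u
      rw [hyΦ] at h1
      exact h1
    have hHfix : ∀ v q, Φ (HH (eO d e) z v q) = HH (eO d e) z v q := by
      intro v q
      simp only [HH]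
      split_ifs
      · exact hzfix _
      · exact map_zero Φ
    refine ⟨fun i q => ?_, fun q => hzfix _, fun q => hHfix _ _, fun u q => hHfix _ _⟩
    simp only [GG]
    rw [map_sum]
    refine Finset.sum_congr rfl fun l _ => ?_
    rw [map_mul, map_pow, hΦC, hργ, hzfix]
  · intro L _ φ hφ K hTK hγK hfK hrelK _
    have hcS : CharZero (A⟦X⟧) := charZero_of_injective_algebraMap (algebraMap A A⟦X⟧).injective
    have hcL : CharZero L := charZero_of_injective_ringHom hφ
    have hcK : CharZero K := inferInstance
    let K' := algebraicClosure K L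
    have hK' : ∀ x : L, IsAlgebraic K' x → IsAlgebraic K x := by
      intro x hx
      exact (isIntegral_trans (R := K) (A := K') _ hx.isIntegral).isAlgebraic
    -- algebraicity of the coordinates
    have hyalg : ∀ b, IsAlgebraic K (φ (y b)) := by
      by_contra hcon
      push Not at hcon
      obtain ⟨b0, hb0⟩ := hcon
      have htr : Transcendental K' (φ (y b0)) := fun h => hb0 (hK' _ h)
      obtain ⟨δ, hδ⟩ := FF.exists_derivation_ne_zero htr
      let D : Derivation ℤ L L := δ.restrictScalars ℤ
      have hD : ∀ x : L, D x = δ x := fun _ => rfl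
      have hDalg : ∀ x : L, IsAlgebraic K x → D x = 0 := by
        intro x hx
        rw [hD]
        exact δ.map_algebraMap (⟨x, mem_algebraicClosure_iff.mpr hx⟩ : K')
      have hDK : ∀ x ∈ K, D x = 0 := fun x hx => hDalg x (isAlgebraic_algebraMap (⟨x, hx⟩ : K))
      have hE' : EE (eO d e) p (fun i => φ (PowerSeries.C (γ i))) (φ (PowerSeries.C T))
          (fun u => map φ (relO f rel u))
          (fun u => φ (z u)) = 0 := by
        rw [← map_EE, hEz, map_zero]
      have hJ := JJ_deriv hE' D (fun i => hDalg _ (hγK i)) (hDK _ hTK) (fun u s => by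
        rw [MvPolynomial.coeff_map]
        have hcf : ∀ {DD : ℕ} (g : MonV (N + 2) DD → A⟦X⟧), (∀ q, φ (g q) ∈ K) →
            D (φ (MvPolynomial.coeff s (pol g))) = 0 := by
          intro DD g hg
          by_cases hs : s.degree ≤ DD
          · exact (congrArg (fun y => D (φ y)) (coeff_pol g ⟨s, hs⟩)).trans (hDK _ (hg _))
          · rw [coeff_pol_of g (not_le.1 hs), map_zero, map_zero]
        rcases u with _ | u
        · exact hcf f hfK
        · exact hcf (rel u) (hrelK u))
      set w : κ → L := fun b => D (φ (y b)) with hw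
      have hDz : (fun u => D (φ (z u))) = PC.ex a w := by
        funext u
        rw [hz]
        change D (φ (PowerSeries.C (z0 N p r m U γ u) + PC.ex a y u)) = _
        rw [map_add, map_add, PC.map_ex, PC.ex_der, hDalg, zero_add]
        have h1 := map_z0 (N := N) (U := U) (p := p) (r := r) (m := m) (φ.comp (PowerSeries.C (R := A))) γ u
        rw [RingHom.comp_apply] at h1
        rw [h1]
        exact isAlgebraic_z0 K (fun i => hγK i) u
      rw [hDz] at hJ
      -- the matrix
      let P : MonV (N + 2) (d * (1 + p * m)) → κ → A⟦X⟧ := fun q b =>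
        cf (d * (1 + p * m)) (JJ (eO d e) p (fun i => PowerSeries.C (γ i)) (PowerSeries.C T)
          (relO f rel) z
          (PC.ex a fun b' => if b' = b then 1 else 0)) q
      have hJL : ∀ (w' : κ → L) q, cf (d * (1 + p * m)) (JJ (eO d e) p (fun i => φ (PowerSeries.C (γ i)))
          (φ (PowerSeries.C T)) (fun u => map φ (relO f rel u)) (fun u => φ (z u)) (PC.ex a w')) q =
          ∑ b, w' b * φ (P q b) := by
        intro w' q
        have h1 : PC.ex a w' = ∑ b, w' b • PC.ex a (fun b' => if b' = b then (1 : L) else 0) := by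
          funext u
          rw [Finset.sum_apply]
          simp only [PC.ex, Pi.smul_apply, smul_eq_mul, Finset.mul_sum]
          rw [Finset.sum_comm]
          refine Finset.sum_congr rfl fun b' _ => ?_
          rw [Finset.sum_eq_single b']
          · simp
          · intro b _ hb
            rw [if_neg hb.symm]
            simp
          · intro h
            exact absurd (Finset.mem_univ _) h
        have h2 : JJ (eO d e) p (fun i => φ (PowerSeries.C (γ i)))
          (φ (PowerSeries.C T)) (fun u => map φ (relO f rel u)) (fun u => φ (z u)) (PC.ex a w') =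
          JJl (eO d e) p (fun i => φ (PowerSeries.C (γ i)))
          (φ (PowerSeries.C T)) (fun u => map φ (relO f rel u)) (fun u => φ (z u)) (PC.ex a w') := rfl
        rw [h2, h1, map_sum, cf_sum]
        refine Finset.sum_congr rfl fun b _ => ?_
        rw [map_smul, MvPolynomial.smul_eq_C_mul, cf_C_mul]
        congr 1
        change _ = φ (cf _ _ q)
        rw [← cf_map, map_JJ]
        have h3 : (fun u => φ (PC.ex a (fun b' => if b' = b then (1 : A⟦X⟧) else 0) u)) =
            PC.ex a (fun b' => if b' = b then (1 : L) else 0) := by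
          funext u
          rw [PC.map_ex]
          congr 1
          funext b'
          split_ifs
          · exact map_one φ
          · exact map_zero φ
        rw [h3]
        rfl
      have hPw : ∀ q, ∑ b, w b * φ (P q b) = 0 := by
        intro q
        rw [← hJL, hJ]
        simp [cf]
      -- the product with `N`
      let Q : Matrix κ κ A⟦X⟧ := Matrix.of fun b b' => ∑ q, PowerSeries.C (Nm b q) * P q b'
      have hQc : ∀ b b', PowerSeries.constantCoeff (Q b b') = if b = b' then 1 else 0 := by
        intro b b'
        have h1 : ∀ q, PowerSeries.constantCoeff (P q b') = M q b' := by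
          intro q
          have h2 := hsys.lin y hy (fun c => if c = b' then 1 else 0) q
          rw [PowerSeries.X_dvd_iff, map_sub, sub_eq_zero, map_sum] at h2
          refine h2.trans ?_
          rw [Finset.sum_eq_single b']
          · rw [if_pos rfl, mul_one, PowerSeries.constantCoeff_C]
          · intro c _ hc
            rw [if_neg hc, mul_zero, map_zero]
          · intro h
            exact absurd (Finset.mem_univ _) h
        have h3 := congrArg PowerSeries.constantCoeff
          (hsys.nm (fun c => if c = b' then 1 else 0) b)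
        have h4 : PowerSeries.constantCoeff (Q b b') = ∑ q, Nm b q * M q b' := by
          change PowerSeries.constantCoeff (∑ q, PowerSeries.C (Nm b q) * P q b') = _
          rw [map_sum]
          exact Finset.sum_congr rfl fun q _ => by
            rw [map_mul, PowerSeries.constantCoeff_C, h1]
        rw [h4]
        have h5 : PowerSeries.constantCoeff (∑ q, PowerSeries.C (Nm b q) * ∑ c, PowerSeries.C (M q c) *
            (if c = b' then (1 : A⟦X⟧) else 0)) = ∑ q, Nm b q * M q b' := by
          rw [map_sum]
          refine Finset.sum_congr rfl fun q _ => ?_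
          rw [map_mul, PowerSeries.constantCoeff_C, map_sum, Finset.sum_eq_single b']
          · rw [if_pos rfl, mul_one, PowerSeries.constantCoeff_C]
          · intro c _ hc
            rw [if_neg hc, mul_zero, map_zero]
          · intro h
            exact absurd (Finset.mem_univ _) h
        rw [← h5, h3]
        split_ifs
        · exact map_one _
        · exact map_zero _
      have hdet : PowerSeries.constantCoeff Q.det = 1 := by
        rw [RingHom.map_det]
        have h1 : (PowerSeries.constantCoeff (R := A)).mapMatrix Q = 1 := by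
          ext b b'
          rw [RingHom.mapMatrix_apply, Matrix.map_apply, hQc, Matrix.one_apply]
        rw [h1, Matrix.det_one]
      have hdetφ : ((φ : A⟦X⟧ →+* L).mapMatrix Q).det ≠ 0 := by
        rw [← RingHom.map_det]
        intro h
        have h1 : Q.det = 0 := hφ (by rw [h, map_zero])
        rw [h1, map_zero] at hdet
        exact zero_ne_one hdet
      have hQw : ((φ : A⟦X⟧ →+* L).mapMatrix Q).mulVec w = 0 := by
        funext b
        rw [Pi.zero_apply, Matrix.mulVec, dotProduct]
        have h1 : ∀ b', ((φ : A⟦X⟧ →+* L).mapMatrix Q) b b' * w b' =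
            ∑ q, φ (PowerSeries.C (Nm b q)) * (w b' * φ (P q b')) := by
          intro b'
          rw [RingHom.mapMatrix_apply, Matrix.map_apply]
          change φ (∑ q, PowerSeries.C (Nm b q) * P q b') * w b' = _
          rw [map_sum, Finset.sum_mul]
          exact Finset.sum_congr rfl fun q _ => by rw [map_mul]; ring
        rw [Finset.sum_congr rfl fun b' _ => h1 b', Finset.sum_comm]
        refine Finset.sum_eq_zero fun q _ => ?_
        rw [← Finset.mul_sum, hPw, mul_zero]
      have hw0 := Matrix.eq_zero_of_mulVec_eq_zero hdetφ hQw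
      have h1 := congrFun hw0 b0
      rw [hw, Pi.zero_apply] at h1
      change D (φ (y b0)) = 0 at h1
      rw [hD, hδ] at h1
      exact one_ne_zero h1
    have hzalg : ∀ u, IsAlgebraic K (φ (z u)) := by
      intro u
      rw [hz]
      change IsAlgebraic K (φ (PowerSeries.C (z0 N p r m U γ u) + PC.ex a y u))
      rw [map_add]
      refine IsAlgebraic.add ?_ ?_
      · have h1 := map_z0 (N := N) (U := U) (p := p) (r := r) (m := m) (φ.comp (PowerSeries.C (R := A))) γ u
        rw [RingHom.comp_apply] at h1
        rw [h1]
        exact isAlgebraic_z0 K (fun i => hγK i) u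
      · rw [PC.map_ex]
        refine mem_algebraicClosure_iff.mp (?_ : _ ∈ algebraicClosure K L)
        simp only [PC.ex]
        refine sum_mem fun b _ => ?_
        split_ifs
        · rw [mul_one]
          exact mem_algebraicClosure_iff.mpr (hyalg b)
        · rw [mul_zero]
          exact zero_mem _
    have hHalg : ∀ v q, IsAlgebraic K (φ (HH (eO d e) z v q)) := by
      intro v q
      simp only [HH]
      split_ifs
      · exact hzalg _
      · rw [map_zero]
        exact isAlgebraic_zero
    refine ⟨fun i q => ?_, fun q => hzalg _, fun q => hHalg _ _, fun u q => hHalg _ _⟩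
    simp only [GG]
    rw [map_sum]
    refine mem_algebraicClosure_iff.mp (?_ : _ ∈ algebraicClosure K L)
    refine sum_mem fun l _ => ?_
    rw [map_mul, map_pow]
    exact mul_mem (pow_mem (mem_algebraicClosure_iff.mpr (hγK i)) _)
      (mem_algebraicClosure_iff.mpr (hzalg _))

end Sol

end Pool.Agent.BT
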