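import Pool.Agent.Helper10.BT.Eqn
import Pool.Agent.Helper10.BT.Lin
import Pool.Agent.Helper10.PL.Sol2

/-!
# BERTINI: the special solution and the surjectivity of the derivative
-/

universe u v

namespace Pool.Agent.BT

open MvPolynomial

/-- the degrees of the main relation and of the other relations -/
def eO {U : Type} (d : ℕ) (e : U → ℕ) : Option U → ℕ
  | none => d
  | some u => e u

/-- the main relation and the other relations -/
noncomputable def relO {R : Type u} [CommSemiring R] {n : ℕ} {U : Type} {d : ℕ} {e : U → ℕ}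
    (f : MonV n d → R) (rel : ∀ u, MonV n (e u) → R) : Option U → MvPolynomial (Fin n) R
  | none => pol f
  | some u => pol (rel u)

lemma map_relO {R : Type u} [CommRing R] {S : Type v} [CommRing S] (φ : R →+* S) {n : ℕ} {U : Type}
    {d : ℕ} {e : U → ℕ} (f : MonV n d → R) (rel : ∀ u, MonV n (e u) → R) (u : Option U) :
    map φ (relO f rel u) = relO (fun q => φ (f q)) (fun u q => φ (rel u q)) u := by
  rcases u with _ | u
  · exact map_pol φ f
  · exact map_pol φ (rel u)

lemma totalDegree_relO_le {R : Type u} [CommRing R] {n : ℕ} {U : Type} {d : ℕ} {e : U → ℕ}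
    (f : MonV n d → R) (rel : ∀ u, MonV n (e u) → R) (u : Option U) :
    (relO f rel u).totalDegree ≤ eO d e u := by
  rcases u with _ | u
  · exact totalDegree_pol_le f
  · exact totalDegree_pol_le (rel u)

section Spec

variable {A : Type u} [CommRing A] {N d p r m : ℕ} {U : Type}

/-- the special solution -/
noncomputable def z0 (N p r m : ℕ) (U : Type) {d : ℕ} (γ : Fin d → A) :
    Unk (N + 2) (1 + p * m) (r * (1 + p * m)) (d * (1 + p * m)) (Option U) → A
  | Sum.inl (l, q) => cf _ (inc N (PC.pol fun q' => PC.z0 p r m γ (Sum.inl (l, q')))) q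
  | Sum.inr (Sum.inl q) => cf _ (inc N (PC.W0 r m γ)) q
  | Sum.inr (Sum.inr (none, q)) => cf _ (inc N (PC.H0 p m γ)) q
  | Sum.inr (Sum.inr (some _, _)) => 0

lemma map_z0 {S : Type v} [CommRing S] (φ : A →+* S) (γ : Fin d → A)
    (u : Unk (N + 2) (1 + p * m) (r * (1 + p * m)) (d * (1 + p * m)) (Option U)) :
    φ (z0 N p r m U γ u) = z0 N p r m U (fun i => φ (γ i)) u := by
  rcases u with ⟨l, q⟩ | (q | ⟨_ | u, q⟩)
  · simp only [z0]
    rw [← cf_map, map_inc, PC.map_pol]
    simp only [PC.map_z0]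
  · simp only [z0]
    rw [← cf_map, map_inc, PC.map_W0]
  · simp only [z0]
    rw [← cf_map, map_inc, PC.map_H0]
  · exact map_zero φ

lemma z0_perm (γ : Fin d → A) (e : Equiv.Perm (Fin d))
    (u : Unk (N + 2) (1 + p * m) (r * (1 + p * m)) (d * (1 + p * m)) (Option U)) :
    z0 N p r m U (fun i => γ (e i)) u = z0 N p r m U γ u := by
  rcases u with ⟨l, q⟩ | (q | ⟨_ | u, q⟩)
  · rfl
  · simp only [z0]
    rw [PC.W0_perm]
  · simp only [z0]
    rw [PC.H0_perm]
  · rfl

variable [Nontrivial A]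

lemma pol_GG_z0 (γ : Fin d → A) (i : Fin d) :
    pol (GG γ (z0 N p r m U γ) i) = inc N (PC.G0 p m (γ i)) := by
  have h1 : GG γ (z0 N p r m U γ) i = fun q => ∑ l : Fin (1 + p * m + 1), γ i ^ (l : ℕ) *
      cf (1 + p * m) (inc N (PC.pol fun q' => PC.z0 p r m γ (Sum.inl (l, q')))) q := rfl
  rw [h1, pol_finsum]
  have h2 : ∀ l : Fin (1 + p * m + 1), pol (fun q : MonV (N + 2) (1 + p * m) => γ i ^ (l : ℕ) *
      cf (1 + p * m) (inc N (PC.pol fun q' => PC.z0 p r m γ (Sum.inl (l, q')))) q) =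
      inc N (C (γ i ^ (l : ℕ)) * PC.pol fun q' => PC.z0 p r m γ (Sum.inl (l, q'))) := by
    intro l
    rw [pol_smul, pol_cf (totalDegree_inc_le (PC.totalDegree_pol_le _)), map_mul, inc_C]
  rw [Finset.sum_congr rfl fun l _ => h2 l, ← map_sum, ← PC.pol_GG_z0 (r := r) γ i]
  congr 1
  have h3 : PC.GG γ (PC.z0 p r m γ) i = fun q => ∑ l : Fin (1 + p * m + 1), γ i ^ (l : ℕ) *
      PC.z0 p r m γ (Sum.inl (l, q)) := rfl
  rw [h3, PC.pol_finsum]
  exact Finset.sum_congr rfl fun l _ => (PC.pol_smul _ _).symm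

lemma pol_WW_z0 (hd : d = p * r) (γ : Fin d → A) :
    pol (WW (z0 N p r m U γ)) = inc N (PC.W0 r m γ) :=
  pol_cf (totalDegree_inc_le (PC.totalDegree_W0 hd γ))

lemma pol_HH_z0_none {e : U → ℕ} (γ : Fin d → A) :
    pol (HH (eO d e) (z0 N p r m U γ) none) = inc N (PC.H0 p m γ) := by
  have h0 : d * (1 + p * m) = d * (p * m) + d := by ring
  have h1 : (inc N (PC.H0 p m γ)).totalDegree ≤ d * (p * m) :=
    totalDegree_inc_le (PC.totalDegree_H0 γ)
  have h2 : (inc N (PC.H0 p m γ)).totalDegree ≤ d * (1 + p * m) := h1.trans (by omega)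
  rw [← pol_cf h2]
  congr 1
  funext q
  change (if q.1.degree + d ≤ d * (1 + p * m) then cf _ (inc N (PC.H0 p m γ)) q else 0) = _
  split_ifs with h
  · rfl
  · rw [cf_apply, totalDegree_le_iff.1 h1 q.1 (by omega)]

omit [Nontrivial A] in
lemma pol_HH_z0_some {e : U → ℕ} (γ : Fin d → A) (u : U) :
    pol (HH (eO d e) (z0 N p r m U γ) (some u)) = 0 := by
  have h : HH (eO d e) (z0 N p r m U γ) (some u) = fun _ => 0 := by
    funext q
    simp only [HH]
    split_ifs
    · rfl
    · rfl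
  rw [h, pol_zero]

lemma EE_z0 [Fintype U] {e : U → ℕ} (hd : d = p * r) (γ : Fin d → A) (T : A)
    {F : Option U → MvPolynomial (Fin (N + 2)) A} (hF : F none = inc N (PC.f0 γ T)) :
    EE (eO d e) p γ T F (z0 N p r m U γ) = 0 := by
  rw [EE, pol_WW_z0 hd, Fintype.sum_option, pol_HH_z0_none, hF]
  simp only [pol_GG_z0, pol_HH_z0_some, zero_mul, Finset.sum_const_zero, add_zero]
  have h1 := congrArg (inc N) (PC.EE_z0 (m := m) hd γ T)
  rw [PC.EE, PC.pol_WW_z0 hd, PC.pol_HH_z0, map_sub, map_sub, map_prod, map_mul, map_mul, map_pow,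
    inc_C, map_zero] at h1
  simp only [PC.pol_GG_z0] at h1
  exact h1

end Spec

section Surj

variable {A : Type u} [Field A] {N d p r m c : ℕ} {U : Type}

lemma exists_GG {n a : ℕ} (hda : d ≤ a + 1) {γ : Fin d → A} (hγ : Function.Injective γ)
    (g : Fin d → MvPolynomial (Fin n) A) (hg : ∀ i, (g i).totalDegree ≤ a) :
    ∃ δ : Fin (a + 1) × MonV n a → A, ∀ i,
      pol (fun q => ∑ l : Fin (a + 1), γ i ^ (l : ℕ) * δ (l, q)) = g i := by
  classical
  refine ⟨fun lq => (Lagrange.interpolate Finset.univ γ fun i => cf a (g i) lq.2).coeff lq.1,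
    fun i => ?_⟩
  rw [← pol_cf (hg i)]
  congr 1
  funext q
  have h1 := Lagrange.eval_interpolate_at_node (s := Finset.univ) (v := γ)
    (fun i => cf a (g i) q) (hγ.injOn) (Finset.mem_univ i)
  rw [← h1]
  have h2 : (Lagrange.interpolate Finset.univ γ fun i => cf a (g i) q).natDegree < a + 1 := by
    have h3 := Lagrange.degree_interpolate_lt (s := Finset.univ) (v := γ)
      (fun i => cf a (g i) q) (hγ.injOn)
    rw [Finset.card_univ, Fintype.card_fin] at h3
    by_cases h0 : (Lagrange.interpolate Finset.univ γ fun i => cf a (g i) q) = 0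
    · rw [h0, Polynomial.natDegree_zero]
      omega
    · rw [Polynomial.degree_eq_natDegree h0] at h3
      have h4 : (Lagrange.interpolate Finset.univ γ fun i => cf a (g i) q).natDegree < d := by
        exact_mod_cast h3
      omega
  rw [Polynomial.eval_eq_sum_range' h2, ← Fin.sum_univ_eq_sum_range
    (fun l => (Lagrange.interpolate Finset.univ γ fun i => cf a (g i) q).coeff l * γ i ^ l)]
  exact Finset.sum_congr rfl fun l _ => mul_comm _ _

theorem JJ_surj [CharZero A] [Fintype U] {e : U → ℕ} (hp : p.Prime) (hd : d = p * r) (hd0 : 0 < d)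
    (hm : d + c ≤ m) {T : A} (hT : T ≠ 0) {γ : Fin d → A} (hγ : Function.Injective γ)
    (hγ1 : ∀ i j, γ i ≠ γ j + 1) {f : MonV (N + 2) d → A} {rel : ∀ u, MonV (N + 2) (e u) → A}
    (hf : pol f = inc N (PC.f0 γ T)) (hrel : Noe rel c)
    (F : MvPolynomial (Fin (N + 2)) A) (hF : F.totalDegree ≤ d * (1 + p * m)) :
    ∃ δ, JJ (eO d e) p γ T (relO f rel) (z0 N p r m U γ) δ = F := by
  classical
  obtain ⟨g, u, h, b, hg, hu, hh, hb, heq⟩ := surj_fam hp hd hd0 hm hT hγ hγ1 hrel F hF
  obtain ⟨δ, hδ⟩ := exists_GG (a := 1 + p * m) (by nlinarith [hp.two_le]) hγ g hg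
  have hmul : d * (1 + p * m) = d * (p * m) + d := by ring
  let H : Option U → MvPolynomial (Fin (N + 2)) A := fun
    | none => h
    | some v => b v
  have hH : ∀ v, H v = 0 ∨ (H v).totalDegree + eO d e v ≤ d * (1 + p * m) := by
    rintro (_ | v)
    · right
      change h.totalDegree + d ≤ _
      omega
    · by_cases h0 : b v = 0
      · exact Or.inl h0
      · exact Or.inr (hb v h0)
  let Δ : Unk (N + 2) (1 + p * m) (r * (1 + p * m)) (d * (1 + p * m)) (Option U) → A :=
    Sum.elim δ (Sum.elim (cf _ u) fun vq => cf _ (H vq.1) vq.2)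
  refine ⟨Δ, ?_⟩
  have h1 : ∀ i, pol (GG γ Δ i) = g i := fun i => hδ i
  have h2 : pol (WW Δ) = u := pol_cf hu
  have h3 : ∀ v, pol (HH (eO d e) Δ v) = H v := by
    intro v
    rcases hH v with h0 | h0
    · have h4 : HH (eO d e) Δ v = fun _ => 0 := by
        funext q
        change (if q.1.degree + eO d e v ≤ d * (1 + p * m) then cf _ (H v) q else 0) = 0
        rw [h0]
        simp [cf]
      rw [h4, pol_zero, h0]
    · rw [← pol_cf (show (H v).totalDegree ≤ d * (1 + p * m) by omega)]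
      congr 1
      funext q
      change (if q.1.degree + eO d e v ≤ d * (1 + p * m) then cf _ (H v) q else 0) = _
      split_ifs with h4
      · rfl
      · rw [cf_apply, totalDegree_le_iff.1 (le_refl (H v).totalDegree) q.1 (by omega)]
  rw [heq, JJ, pol_WW_z0 hd, h2, Fintype.sum_option, h3]
  simp only [pol_GG_z0, h1, h3]
  change _ - (h * pol f + ∑ x, b x * pol (rel x)) = _
  rw [hf]
  ring

end Surj

end Pool.Agent.BT
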